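import Mathlib
import Pool.Agent.H.MP_af3abc_an.D

set_option autoImplicit false

namespace Pool.Agent.Results.MP_af3abc_an.Dichotomy

open Pool.Agent.H.MP_ca490d_an

theorem result (H : Type) [NormedAddCommGroup H] [InnerProductSpace ℂ H] [CompleteSpace H] :
    (TopologicalSpace.SeparableSpace H → ∀ A : Set (compactOperator (RingHom.id ℂ) H H),
      Bornology.IsBounded A → omega A = wk A ∧ wk A = wck A) ∧
    (¬ TopologicalSpace.SeparableSpace H → ∀ c : NNReal,
      ∃ A : Set (compactOperator (RingHom.id ℂ) H H),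
        Bornology.IsBounded A ∧ wk A ≤ 1 ∧ (c : ENNReal) * wk A < omega A) :=
  Pool.Agent.H.MP_af3abc_an.main

end Pool.Agent.Results.MP_af3abc_an.Dichotomy
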